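import Pool.Agent.TH789.LT.Van
import Pool.Agent.TH789.LT.Cov

set_option autoImplicit false

/-!
# Tilings by translates of a function along subsets of finitely many translates of a lattice

Let `f ∈ L¹(ℝᵈ)` tile at some level with a nonempty set `Λ` which is a finite disjoint union of
translated lattices (arbitrary lattices) and of arbitrary subsets of translates of one lattice. Then
`f` tiles with a lattice.

* `Pool.Agent.TH789.LT.{Wt, Key}`: slowly varying weights centred at a place where `Λ` is nearly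
  densest; `f̂(s)` times the weighted mean of `exp (2 π i s λ)` over `Λ` tends to `0` for `s ≠ 0`.
* `Pool.Agent.TH789.LT.{Cls, Van, FF}`: along an ultrafilter the mean tends to a sum
  `∑ d_i exp (2 π i s τ_i)` over the pieces whose dual lattice contains `s`; by reduction modulo a
  maximal ideal of a finitely generated ring it does not vanish for `s` in a multiple of a lattice.
* `Pool.Agent.TH789.LT.{Per, Per2, Cov}`: periodization.
-/

open MeasureTheory Set

namespace Pool.Agent.Results.MP_4be4c6_an.LatticeTranslates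

/-- the translated lattice `A ℤᵈ + τ`, `A` an invertible real matrix (linear automorphism) -/
def Lat {d : ℕ} (A : (Fin d → ℝ) ≃ₗ[ℝ] (Fin d → ℝ)) (τ : Fin d → ℝ) : Set (Fin d → ℝ) :=
  Set.range fun z : Fin d → ℤ => A (fun i => (z i : ℝ)) + τ

/-- `f + Λ` is a tiling at level `w`: `∑_{λ ∈ Λ} f (x - λ) = w` for almost every `x`, with absolute
convergence (`HasSum` is unconditional convergence) -/
def Tiles {d : ℕ} (f : (Fin d → ℝ) → ℂ) (Λ : Set (Fin d → ℝ)) (w : ℂ) : Prop :=
  ∀ᵐ x : Fin d → ℝ, HasSum (fun a : Λ => f (x - a)) w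

/-- If an integrable function on `ℝᵈ` tiles, at any level, with a nonempty set `Λ`, the union of
finitely many disjoint pieces `P i`, each of which is a full translated lattice `B i ℤᵈ + τ i` or
an arbitrary subset of the translate `A ℤᵈ + τ i` of one lattice `A ℤᵈ`, then it tiles with a
lattice. -/
theorem result (d : ℕ) (I : Type) [Fintype I] (P : I → Set (Fin d → ℝ))
    (A : (Fin d → ℝ) ≃ₗ[ℝ] (Fin d → ℝ)) (B : I → (Fin d → ℝ) ≃ₗ[ℝ] (Fin d → ℝ))
    (τ : I → Fin d → ℝ) (hdisj : Pairwise (Function.onFun Disjoint P))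
    (hP : ∀ i, P i = Lat (B i) (τ i) ∨ P i ⊆ Lat A (τ i))
    (Λ : Set (Fin d → ℝ)) (hΛ : Λ = ⋃ i, P i) (hne : Λ.Nonempty)
    (f : (Fin d → ℝ) → ℂ) (hf : Integrable f) (w : ℂ) (hw : Tiles f Λ w) :
    ∃ (L : (Fin d → ℝ) ≃ₗ[ℝ] (Fin d → ℝ)) (w' : ℂ), Tiles f (Lat L 0) w' := by
  classical
  subst hΛ
  have hcount : ∀ i, (P i).Countable := by
    intro i
    rcases hP i with h | h
    · rw [h]; exact Set.countable_range _
    · exact (Set.countable_range _).mono h
  have : ∀ i, Countable (P i) := fun i => (hcount i).to_subtype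
  have : Countable (Σ i, P i) := by
    have : Countable I := Finite.to_countable
    infer_instance
  have : Nonempty (Σ i, P i) := by
    obtain ⟨x, hx⟩ := hne
    obtain ⟨i, hi⟩ := Set.mem_iUnion.1 hx
    exact ⟨⟨i, x, hi⟩⟩
  let A' : I → (Fin d → ℝ) ≃ₗ[ℝ] (Fin d → ℝ) := fun i =>
    if P i = Lat (B i) (τ i) then B i else A
  have hBD : Pool.Agent.TH789.LT.BD (Pool.Agent.TH789.LT.pts P) := by
    refine Pool.Agent.TH789.LT.BD_pts P A' τ fun i => ?_
    by_cases h : P i = Lat (B i) (τ i)
    · have : A' i = B i := if_pos h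
      rw [this]
      exact h.subset
    · have : A' i = A := if_neg h
      rw [this]
      exact (hP i).resolve_left h
  have ht : ∀ᵐ x : Fin d → ℝ,
      HasSum (fun a : Σ i, P i => f (x - Pool.Agent.TH789.LT.pts P a)) w := by
    filter_upwards [hw] with x hx
    exact ((Set.unionEqSigmaOfDisjoint hdisj).symm.hasSum_iff (f := fun a : ⋃ i, P i =>
      f (x - a))).2 hx
  obtain ⟨C, q, hq, hv⟩ := Pool.Agent.TH789.LT.vanish P hBD A B τ hP f hf w ht
  obtain ⟨L, w', hL⟩ := Pool.Agent.TH789.LT.lattice_tiling f hf C q hq hv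
  refine ⟨L, w', ?_⟩
  filter_upwards [hL] with x hx
  have hinj : Function.Injective fun z : Fin d → ℤ => L (fun i => (z i : ℝ)) + 0 := by
    intro z z' h
    have h1 := L.injective (add_right_cancel h)
    funext i
    have := congrFun h1 i
    exact_mod_cast this
  have h2 := (Equiv.ofInjective _ hinj).hasSum_iff (f := fun a : Lat L 0 => f (x - a)) (a := w')
  refine h2.1 ?_
  refine hx.congr_fun ?_ |> id
  intro z
  show f (x - (L (fun i => (z i : ℝ)) + 0)) = _
  rw [add_zero]

end Pool.Agent.Results.MP_4be4c6_an.LatticeTranslates
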