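import Pool.Agent.TH789.LT.Maj

set_option autoImplicit false

/-!
# Tilings with a set most of whose points lie in one translated lattice

Let `f ∈ L¹(ℝᵈ)` tile with a set `Λ` of bounded density. If, for some `r > 0` and `θ < 1/2`, in every
cube `x + (-r, r)ᵈ` at most the proportion `θ` of the points of `Λ` lies outside the translated
lattice `A ℤᵈ + τ`, then `f` tiles with the lattice `A ℤᵈ`. Nothing else is assumed about the other
points.

* `Pool.Agent.TH789.LT.{Wt, Key}`: for slowly varying weights, centred at a place where `Λ` is nearly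
  densest, `f̂(s)` times the weighted mean of `exp (2 π i s λ)` over `Λ` tends to `0` for `s ≠ 0`.
* `Pool.Agent.TH789.LT.{Cnt, Maj}`: for `s` in the dual lattice the mean has absolute value at least
  `1 - 2 θ - o(1)`.
* `Pool.Agent.TH789.LT.{Per, Per2}`: periodization.
-/

open MeasureTheory Set Metric
open scoped ENNReal

namespace Pool.Agent.Results.MP_4be4c6_an.MajorityLattice

/-- the translated lattice `A ℤᵈ + τ`, `A` an invertible real matrix (linear automorphism) -/
def Lat {d : ℕ} (A : (Fin d → ℝ) ≃ₗ[ℝ] (Fin d → ℝ)) (τ : Fin d → ℝ) : Set (Fin d → ℝ) :=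
  Set.range fun z : Fin d → ℤ => A (fun i => (z i : ℝ)) + τ

/-- `f + Λ` is a tiling at level `w`: `∑_{λ ∈ Λ} f (x - λ) = w` for almost every `x`, with absolute
convergence (`HasSum` is unconditional convergence) -/
def Tiles {d : ℕ} (f : (Fin d → ℝ) → ℂ) (Λ : Set (Fin d → ℝ)) (w : ℂ) : Prop :=
  ∀ᵐ x : Fin d → ℝ, HasSum (fun a : Λ => f (x - a)) w

/-- If an integrable function on `ℝᵈ` tiles, at any level, with a nonempty set `Λ` of bounded
density, and in every open cube of side `2 r` at most the proportion `θ < 1/2` of the points of `Λ`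
lies outside a translate of the lattice `A ℤᵈ`, then it tiles with the lattice `A ℤᵈ`. (`ball x r` is
the open cube with centre `x` and side `2 r`, the norm of `Fin d → ℝ` being the maximum norm.) -/
theorem result (d : ℕ) (Λ : Set (Fin d → ℝ)) (hne : Λ.Nonempty) (M : ℕ)
    (hM : ∀ x, (Λ ∩ ball x 1).encard ≤ M) (A : (Fin d → ℝ) ≃ₗ[ℝ] (Fin d → ℝ)) (τ : Fin d → ℝ)
    (r : ℝ) (hr : 0 < r) (θ : ℝ) (hθ0 : 0 ≤ θ) (hθ : θ < 1 / 2)
    (hmaj : ∀ x, (((Λ \ Lat A τ) ∩ ball x r).encard : ℝ≥0∞) ≤
      ENNReal.ofReal θ * ((Λ ∩ ball x r).encard : ℝ≥0∞))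
    (f : (Fin d → ℝ) → ℂ) (hf : Integrable f) (w : ℂ) (hw : Tiles f Λ w) :
    ∃ w' : ℂ, Tiles f (Lat A 0) w' := by
  have hv := Pool.Agent.TH789.LT.majority Λ hne M hM A τ r hr θ hθ0 hθ hmaj f hf w hw
  have hL := Pool.Agent.TH789.LT.lattice_tiling_one f hf A hv
  refine ⟨∫ u, f (A u), ?_⟩
  unfold Tiles
  filter_upwards [hL] with x hx
  have hinj : Function.Injective fun z : Fin d → ℤ => A (fun i => (z i : ℝ)) + 0 := by
    intro z z' h
    have h1 := A.injective (add_right_cancel h)
    funext i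
    have := congrFun h1 i
    exact_mod_cast this
  have h2 := (Equiv.ofInjective _ hinj).hasSum_iff (f := fun a : Lat A 0 => f (x - a))
    (a := ∫ u, f (A u))
  refine h2.1 ?_
  refine hx.congr_fun ?_ |> id
  intro z
  show f (x - (A (fun i => (z i : ℝ)) + 0)) = _
  rw [add_zero]

end Pool.Agent.Results.MP_4be4c6_an.MajorityLattice
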