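import Pool.Agent.TH789.LT.Two2
import Pool.Agent.TH789.LT.Cov

set_option autoImplicit false

/-!
# Tilings by translates of a function along an arbitrary subset of two translated lattices

Let `f ∈ L¹(ℝᵈ)` tile at some level with a nonempty set `Λ` contained in the union of two translated
lattices (arbitrary lattices; no periodicity or density assumption). Then `f` tiles with a lattice.

* `Pool.Agent.TH789.LT.{Wt, Key}`: for slowly varying weights, centred at a place where `Λ` is nearly
  densest, `f̂(s)` times the weighted mean of `exp (2 π i s λ)` over `Λ` tends to `0` for `s ≠ 0`.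
* `Pool.Agent.TH789.LT.{Two, Two2}`: one of the two pieces has, in the limit along an ultrafilter, at
  least half of the weight. If the mean vanishes in the limit at a point `s` of the dual lattice of
  this piece, the other piece has exactly half of the weight, and its `exp (2 π i s λ)` are nearly all
  equal; their common values are products of powers of fixed nonzero numbers, and by reduction modulo
  a maximal ideal of a finitely generated ring the mean does not vanish in a multiple of the lattice.
* `Pool.Agent.TH789.LT.{Per, Per2, Cov}`: periodization.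
-/

open MeasureTheory Set

namespace Pool.Agent.Results.MP_4be4c6_an.TwoLattices

/-- the translated lattice `A ℤᵈ + τ`, `A` an invertible real matrix (linear automorphism) -/
def Lat {d : ℕ} (A : (Fin d → ℝ) ≃ₗ[ℝ] (Fin d → ℝ)) (τ : Fin d → ℝ) : Set (Fin d → ℝ) :=
  Set.range fun z : Fin d → ℤ => A (fun i => (z i : ℝ)) + τ

/-- `f + Λ` is a tiling at level `w`: `∑_{λ ∈ Λ} f (x - λ) = w` for almost every `x`, with absolute
convergence (`HasSum` is unconditional convergence) -/
def Tiles {d : ℕ} (f : (Fin d → ℝ) → ℂ) (Λ : Set (Fin d → ℝ)) (w : ℂ) : Prop :=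
  ∀ᵐ x : Fin d → ℝ, HasSum (fun a : Λ => f (x - a)) w

/-- If an integrable function on `ℝᵈ` tiles, at any level, with a nonempty set `Λ` contained in the
union of two translated lattices `A ℤᵈ + σ` and `B ℤᵈ + τ`, then it tiles with a lattice. -/
theorem result (d : ℕ) (A B : (Fin d → ℝ) ≃ₗ[ℝ] (Fin d → ℝ)) (σ τ : Fin d → ℝ)
    (Λ : Set (Fin d → ℝ)) (hΛ : Λ ⊆ Lat A σ ∪ Lat B τ) (hne : Λ.Nonempty)
    (f : (Fin d → ℝ) → ℂ) (hf : Integrable f) (w : ℂ) (hw : Tiles f Λ w) :
    ∃ (L : (Fin d → ℝ) ≃ₗ[ℝ] (Fin d → ℝ)) (w' : ℂ), Tiles f (Lat L 0) w' := by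
  obtain ⟨C, q, hq, hv⟩ := Pool.Agent.TH789.LT.two_lattices A B σ τ Λ hΛ hne f hf w hw
  obtain ⟨L, w', hL⟩ := Pool.Agent.TH789.LT.lattice_tiling f hf C q hq hv
  refine ⟨L, w', ?_⟩
  filter_upwards [hL] with x hx
  have hinj : Function.Injective fun z : Fin d → ℤ => L (fun i => (z i : ℝ)) + 0 := by
    intro z z' h
    have h1 := L.injective (add_right_cancel h)
    funext i
    have := congrFun h1 i
    exact_mod_cast this
  have h2 := (Equiv.ofInjective _ hinj).hasSum_iff (f := fun a : Lat L 0 => f (x - a)) (a := w')
  refine h2.1 ?_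
  refine hx.congr_fun ?_ |> id
  intro z
  show f (x - (L (fun i => (z i : ℝ)) + 0)) = _
  rw [add_zero]

end Pool.Agent.Results.MP_4be4c6_an.TwoLattices
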